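import Mathlib
import Pool.Agent.PairCorr.G_Final
import Pool.Agent.PairCorr.A_Crit

/-!
# Montgomery's pair correlation conjecture is equivalent to a one-sided bound on a long system of windows

Unconditionally (no Riemann Hypothesis), the asymptotic formula of the pair correlation conjecture
for every `a > 0` is equivalent to the lower bound, up to an error `B e^{-m_j}`, for `a` in the windows
`[p_j, q_j]` of any fixed disjoint system which is long in the sense of Beurling and Malliavin: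
`∑ (q_j - p_j) min(q_j - p_j, m_j) / (1 + q_j)² = ∞`. It is even enough to have the lower bound for the
number of pairs of simple zeros on the critical line.
-/

set_option autoImplicit false

namespace Pool.Agent.Results.MP_f58427_nt.LongWindows

open Filter Topology MeasureTheory

/-- The nontrivial zeros of the Riemann zeta function. -/
def Zeros : Set ℂ := {ρ | riemannZeta ρ = 0 ∧ 0 < ρ.re ∧ ρ.re < 1}

/-- The multiplicity of a zero `ρ`. -/
noncomputable def zmult (ρ : ℂ) : ℕ := analyticOrderNatAt riemannZeta ρ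

/-- The pairs `(ρ, ρ')` of nontrivial zeros, with ordinates `(γ, γ')`, such that `0 < γ ≤ T` and
`0 < γ - γ' ≤ 2πa / log T`. -/
def Pairs (T a : ℝ) : Set (ℂ × ℂ) :=
  {p | p.1 ∈ Zeros ∧ p.2 ∈ Zeros ∧ 0 < p.1.im ∧ p.1.im ≤ T ∧
    0 < p.1.im - p.2.im ∧ p.1.im - p.2.im ≤ 2 * Real.pi * a / Real.log T}

/-- `N*(T,a)`: the number of ordered pairs `(γ,γ')` of ordinates of nontrivial zeros, zeros being
counted with multiplicity, with `0 < γ ≤ T` and `0 < γ - γ' ≤ 2πa / log T`
(the sum is over the finite set `Pairs T a`). -/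
noncomputable def NStar (T a : ℝ) : ℝ := ∑ᶠ p ∈ Pairs T a, ((zmult p.1 : ℝ) * (zmult p.2 : ℝ))

/-- `N*_sc(T,a)`: the number of ordered pairs `(γ,γ')` of ordinates of simple zeros on the critical line with
`0 < γ ≤ T` and `0 < γ - γ' ≤ 2πa / log T`. -/
noncomputable def NStarSC (T a : ℝ) : ℝ :=
  (({p : ℂ × ℂ | p ∈ Pairs T a ∧ p.1.re = 1 / 2 ∧ zmult p.1 = 1 ∧ p.2.re = 1 / 2 ∧ zmult p.2 = 1}).ncard : ℝ)

/-- `(1/2π) ∫_0^a (1 - (sin πu / πu)²) du`, the predicted limit of `N*(T,a) / (T log T)`. -/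
noncomputable def gueLimit (a : ℝ) : ℝ :=
  1 / (2 * Real.pi) * ∫ u in (0 : ℝ)..a, (1 - (Real.sin (Real.pi * u) / (Real.pi * u)) ^ 2)

/-- the index set is finite, so that the finite sum in `NStar` is the true sum. -/
theorem pairs_finite (T a : ℝ) : (Pairs T a).Finite := Pool.Agent.PairCorr.pairSet_finite T a

lemma ratio_eq (T a : ℝ) : NStar T a / (T * Real.log T) = 1 / (2 * Real.pi) * Pool.Agent.PairCorr.Lr T a := by
  rw [Pool.Agent.PairCorr.Lr_eq]
  have e : NStar T a = Pool.Agent.PairCorr.NStar T a := rfl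
  rw [e]
  unfold Pool.Agent.PairCorr.NT
  have hpi := Real.pi_pos
  by_cases h : T * Real.log T = 0
  · simp [h]
  · field_simp

lemma ratioSC_eq (T a : ℝ) : NStarSC T a / (T * Real.log T) =
    1 / (2 * Real.pi) * (Pool.Agent.PairCorr.NSC T a / Pool.Agent.PairCorr.NT T) := by
  have e : NStarSC T a = Pool.Agent.PairCorr.NSC T a := by
    unfold NStarSC Pool.Agent.PairCorr.NSC
    congr 2
    ext p
    constructor
    · rintro ⟨⟨h1, h2, h3, h4, h5, h6⟩, h7, h8, h9, h10⟩
      exact ⟨⟨h1, h7, h8⟩, ⟨h2, h9, h10⟩, h3, h4, h5, h6⟩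
    · rintro ⟨⟨h1, h7, h8⟩, ⟨h2, h9, h10⟩, h3, h4, h5, h6⟩
      exact ⟨⟨h1, h2, h3, h4, h5, h6⟩, h7, h8, h9, h10⟩
  rw [e]
  unfold Pool.Agent.PairCorr.NT
  have hpi := Real.pi_pos
  by_cases h : T * Real.log T = 0
  · simp [h]
  · field_simp

/-- **Unconditional theorem.** Let `T → ∞` (`l = atTop`), or more generally let `T → ∞` along any countably
generated filter `l`, for instance along any sequence. Let `[p_j, q_j]`, `j ∈ ℕ`, be intervals in `[0, ∞)` with
pairwise disjoint interiors, `m_j ≥ 0` and `B ≥ 0`, such that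
`∑ (q_j - p_j) min(q_j - p_j, m_j) / (1 + q_j)² = ∞`. The following are equivalent.
(1) The pair correlation asymptotic `N*(T,a) ~ (1/2π) ∫_0^a (1 - (sin πu/πu)²) du · T log T` holds for every
`a > 0` along `l`.
(2) `liminf N*(T,a) / (T log T) ≥ (1/2π) ∫_0^a (1 - (sin πu/πu)²) du - B e^{-m_j}` along `l`, for all `j` and all
`a ∈ [p_j, q_j]`.
(3) The same as (2) for the number `N*_sc(T,a)` of pairs of simple zeros on the critical line. -/
theorem result {l : Filter ℝ} [l.IsCountablyGenerated] (hl : l ≤ atTop) (p q m : ℕ → ℝ) (B : ℝ) (hB : 0 ≤ B)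
    (hp : ∀ j, 0 ≤ p j) (hpq : ∀ j, p j < q j) (hm : ∀ j, 0 ≤ m j)
    (hdisj : Pairwise fun i j => Disjoint (Set.Ioo (p i) (q i)) (Set.Ioo (p j) (q j)))
    (hlong : ¬ Summable fun j => (q j - p j) * min (q j - p j) (m j) / (1 + q j) ^ 2) :
    List.TFAE [
      ∀ a : ℝ, 0 < a → Tendsto (fun T => NStar T a / (T * Real.log T)) l (𝓝 (gueLimit a)),
      ∀ j, ∀ a ∈ Set.Icc (p j) (q j), ∀ ε : ℝ, 0 < ε → ∀ᶠ T in l,
        gueLimit a - B * Real.exp (-m j) - ε ≤ NStar T a / (T * Real.log T),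
      ∀ j, ∀ a ∈ Set.Icc (p j) (q j), ∀ ε : ℝ, 0 < ε → ∀ᶠ T in l,
        gueLimit a - B * Real.exp (-m j) - ε ≤ NStarSC T a / (T * Real.log T)] := by
  have hpi := Real.pi_pos
  have hg : ∀ a, gueLimit a = 1 / (2 * Real.pi) * Pool.Agent.PairCorr.gue a := fun a => rfl
  have hL : Pool.Agent.PairCorr.LongSys p q m := ⟨hp, hpq, hm, hdisj, hlong⟩
  have hev : ∀ᶠ T in l, Real.exp 1 ≤ T := (eventually_ge_atTop _).filter_mono hl
  -- the main implication
  have h21 : (∀ j, ∀ a ∈ Set.Icc (p j) (q j), ∀ ε : ℝ, 0 < ε → ∀ᶠ T in l,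
      gueLimit a - B * Real.exp (-m j) - ε ≤ NStar T a / (T * Real.log T)) →
      Tendsto Pool.Agent.PairCorr.Mr l (𝓝 1) ∧
        ∀ a > 0, Tendsto (fun T => Pool.Agent.PairCorr.Lr T a) l (𝓝 (Pool.Agent.PairCorr.gue a)) := by
    intro h
    apply Pool.Agent.PairCorr.main_lower_long (l := l) hl hL (B := 2 * Real.pi * B)
    intro j a ha ε hε
    filter_upwards [h j a ha (ε / (2 * Real.pi)) (by positivity)] with T hT
    rw [ratio_eq, hg] at hT
    have h2 := mul_le_mul_of_nonneg_left hT (by positivity : 0 ≤ 2 * Real.pi)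
    have e1 : 2 * Real.pi * (1 / (2 * Real.pi) * Pool.Agent.PairCorr.gue a - B * Real.exp (-m j) -
        ε / (2 * Real.pi)) = Pool.Agent.PairCorr.gue a - 2 * Real.pi * B * Real.exp (-m j) - ε := by
      field_simp
    have e2 : 2 * Real.pi * (1 / (2 * Real.pi) * Pool.Agent.PairCorr.Lr T a) = Pool.Agent.PairCorr.Lr T a := by
      field_simp
    rw [e1, e2] at h2
    exact h2
  have low12 : (∀ a : ℝ, 0 < a → Tendsto (fun T => NStar T a / (T * Real.log T)) l (𝓝 (gueLimit a))) →
      (∀ j, ∀ a ∈ Set.Icc (p j) (q j), ∀ ε : ℝ, 0 < ε → ∀ᶠ T in l,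
      gueLimit a - B * Real.exp (-m j) - ε ≤ NStar T a / (T * Real.log T)) := by
    intro h j a ha ε hε
    have hBe : 0 ≤ B * Real.exp (-m j) := by positivity
    rcases (lt_or_eq_of_le ((hp j).trans ha.1)) with h0 | h0
    · have h1 := (h a h0).eventually (lt_mem_nhds (show gueLimit a - ε < gueLimit a by linarith))
      filter_upwards [h1] with T hT
      linarith
    · filter_upwards [hev] with T hT
      have h1 : gueLimit a = 0 := by rw [← h0]; simp [gueLimit]
      rw [ratio_eq, h1]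
      have := Pool.Agent.PairCorr.Lr_nonneg hT a
      have h3 : 0 ≤ 1 / (2 * Real.pi) * Pool.Agent.PairCorr.Lr T a := by positivity
      linarith
  tfae_have 1 → 3 := by
    intro h j a ha ε hε
    have h1 := h21 (low12 h)
    have hBe : 0 ≤ B * Real.exp (-m j) := by positivity
    have ha0 : 0 ≤ a := (hp j).trans ha.1
    have h2 := Pool.Agent.PairCorr.Lr_sub_NSC hl h1.1 ha0
    have h3 := low12 h j a ha (ε / 2) (by linarith)
    have h4 := (Metric.tendsto_nhds.1 h2) (2 * Real.pi * (ε / 2)) (by positivity)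
    filter_upwards [h3, h4] with T h5 h6
    rw [ratio_eq] at h5
    rw [ratioSC_eq]
    rw [Real.dist_eq, sub_zero, abs_lt] at h6
    have h7 : 1 / (2 * Real.pi) * (Pool.Agent.PairCorr.Lr T a - Pool.Agent.PairCorr.NSC T a / Pool.Agent.PairCorr.NT T) ≤
        ε / 2 := by
      rw [one_div, inv_mul_le_iff₀ (by positivity)]
      exact h6.2.le
    linarith
  tfae_have 3 → 2 := by
    intro h j a ha ε hε
    filter_upwards [h j a ha ε hε, hev] with T h1 hT
    rw [ratioSC_eq] at h1
    rw [ratio_eq]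
    refine h1.trans ?_
    exact mul_le_mul_of_nonneg_left (Pool.Agent.PairCorr.NSC_le hT) (by positivity)
  tfae_have 2 → 1 := by
    intro h a ha
    have h2 := ((h21 h).2 a ha).const_mul (1 / (2 * Real.pi))
    rw [hg]
    exact h2.congr fun T => (ratio_eq T a).symm
  tfae_finish

end Pool.Agent.Results.MP_f58427_nt.LongWindows
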