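import Mathlib
import Pool.Agent.PairCorr.P6_Main

/-!
# The pair correlation conjecture and a one-sided bound for primes in short intervals

Unconditionally, the Riemann Hypothesis together with Montgomery's pair correlation conjecture is
equivalent to the sharp *upper* bound for the variance of primes in the short intervals
`(x, (1+δ)x]`, `δ^{-α} ≤ x ≤ δ^{-β}`, `1 ≤ α < β`.
-/

set_option autoImplicit false

namespace Pool.Agent.Results.MP_f58427_nt.PrimeVariance

open Filter Topology MeasureTheory Set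
open Pool.Agent.PairCorr (NTZ Lr NT)
open Pool.Agent.PairCorr.P6 (RHz WinUB WinLim Win VV MM kap main_tfae exp_kap)

/-- The nontrivial zeros of the Riemann zeta function. -/
def Zeros : Set ℂ := {ρ | riemannZeta ρ = 0 ∧ 0 < ρ.re ∧ ρ.re < 1}

/-- The multiplicity of a zero `ρ`. -/
noncomputable def zmult (ρ : ℂ) : ℕ := analyticOrderNatAt riemannZeta ρ

/-- The pairs `(ρ, ρ')` of nontrivial zeros, with ordinates `(γ, γ')`, such that `0 < γ ≤ T` and
`0 < γ - γ' ≤ 2πa / log T`. -/
def Pairs (T a : ℝ) : Set (ℂ × ℂ) :=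
  {p | p.1 ∈ Zeros ∧ p.2 ∈ Zeros ∧ 0 < p.1.im ∧ p.1.im ≤ T ∧
    0 < p.1.im - p.2.im ∧ p.1.im - p.2.im ≤ 2 * Real.pi * a / Real.log T}

/-- `N*(T,a)`: the number of ordered pairs `(γ,γ')` of ordinates of nontrivial zeros, zeros being
counted with multiplicity, with `0 < γ ≤ T` and `0 < γ - γ' ≤ 2πa / log T`
(the sum is over the finite set `Pairs T a`). -/
noncomputable def NStar (T a : ℝ) : ℝ := ∑ᶠ p ∈ Pairs T a, ((zmult p.1 : ℝ) * (zmult p.2 : ℝ))

/-- `(1/2π) ∫_0^a (1 - (sin πu / πu)²) du`, the predicted limit of `N*(T,a) / (T log T)`. -/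
noncomputable def gueLimit (a : ℝ) : ℝ :=
  1 / (2 * Real.pi) * ∫ u in (0 : ℝ)..a, (1 - (Real.sin (Real.pi * u) / (Real.pi * u)) ^ 2)

/-- Montgomery's pair correlation conjecture: for every `a > 0`, as `T → ∞`,
`N*(T,a) = ((1/2π) ∫_0^a (1 - (sin πu / πu)²) du + o(1)) T log T`. -/
def PairCorrelation : Prop :=
  ∀ a : ℝ, 0 < a → Tendsto (fun T => NStar T a / (T * Real.log T)) atTop (𝓝 (gueLimit a))

/-- The variance of primes in short intervals
`∫_{δ^{-α}}^{δ^{-β}} (ψ((1+δ)x) - ψ(x) - δx)² x⁻² dx`, where `ψ(x) = ∑_{n ≤ x} Λ(n)`. -/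
noncomputable def primeVariance (δ α β : ℝ) : ℝ :=
  ∫ x in (δ ^ (-α))..(δ ^ (-β)), (Chebyshev.psi ((1 + δ) * x) - Chebyshev.psi x - δ * x) ^ 2 / x ^ 2

/-- the index set is finite, so that the finite sum in `NStar` is the true sum. -/
theorem pairs_finite (T a : ℝ) : (Pairs T a).Finite := Pool.Agent.PairCorr.pairSet_finite T a

lemma ratio_eq (T a : ℝ) : NStar T a / (T * Real.log T) = 1 / (2 * Real.pi) * Lr T a := by
  rw [Pool.Agent.PairCorr.Lr_eq]
  have e : NStar T a = Pool.Agent.PairCorr.NStar T a := rfl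
  rw [e]
  unfold NT
  have hpi := Real.pi_pos
  by_cases h : T * Real.log T = 0
  · simp [h]
  · field_simp

lemma rh_iff : RiemannHypothesis ↔ RHz := by
  constructor
  · intro h ρ hρ
    apply h ρ hρ.1
    · rintro ⟨n, hn⟩
      have h1 := hρ.2.1
      rw [hn] at h1
      simp only [Complex.mul_re, Complex.neg_re, Complex.re_ofNat, Complex.add_re, Complex.natCast_re,
        Complex.one_re, Complex.neg_im, Complex.im_ofNat, neg_zero, zero_mul, sub_zero] at h1
      have : (0:ℝ) ≤ n := Nat.cast_nonneg n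
      linarith
    · intro h1
      have := hρ.2.2
      rw [h1, Complex.one_re] at this
      exact lt_irrefl _ this
  · intro h s hs htriv hs1
    have hre1 : s.re < 1 := by
      by_contra hc
      push Not at hc
      exact riemannZeta_ne_zero_of_one_le_re hc hs
    have hre0 : 0 < s.re := by
      by_contra hc
      push Not at hc
      set w : ℂ := 1 - s with hw
      have hwre : 1 ≤ w.re := by rw [hw, Complex.sub_re, Complex.one_re]; linarith
      have hwn : ∀ n : ℕ, w ≠ -n := by
        intro n hn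
        rw [hn, Complex.neg_re, Complex.natCast_re] at hwre
        have : (0:ℝ) ≤ n := Nat.cast_nonneg n
        linarith
      by_cases hw1 : w = 1
      · have : s = 0 := by
          have : s = 1 - w := by rw [hw]; ring
          rw [this, hw1, sub_self]
        rw [this, riemannZeta_zero] at hs
        norm_num at hs
      · have h1 := riemannZeta_one_sub hwn hw1
        have h2 : 1 - w = s := by rw [hw]; ring
        rw [h2, hs] at h1
        have hζ : riemannZeta w ≠ 0 := riemannZeta_ne_zero_of_one_le_re hwre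
        have hΓ : Complex.Gamma w ≠ 0 := Complex.Gamma_ne_zero hwn
        have hpow : (2 * (Real.pi : ℂ)) ^ (-w) ≠ 0 := by
          rw [Complex.cpow_ne_zero_iff]
          left
          have : (Real.pi : ℂ) ≠ 0 := by exact_mod_cast Real.pi_ne_zero
          simp [this]
        have hcos : Complex.cos (Real.pi * w / 2) = 0 := by
          have h3 := h1.symm
          simp only [mul_eq_zero, hζ, hΓ, hpow, or_false, OfNat.ofNat_ne_zero, false_or] at h3
          exact h3
        obtain ⟨k, hk⟩ := Complex.cos_eq_zero_iff.1 hcos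
        have hwk : w = 2 * k + 1 := by
          have hpi : (Real.pi : ℂ) ≠ 0 := by exact_mod_cast Real.pi_ne_zero
          have h4 : (Real.pi : ℂ) * w = Real.pi * (2 * k + 1) := by
            have := congrArg (fun z => z * 2) hk
            beta_reduce at this
            rw [div_mul_cancel₀ _ (by norm_num : (2:ℂ) ≠ 0), div_mul_cancel₀ _ (by norm_num : (2:ℂ) ≠ 0)] at this
            rw [this]; ring
          exact mul_left_cancel₀ hpi h4
        have hkr : w.re = 2 * k + 1 := by
          rw [hwk]; simp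
        have hk0 : 0 ≤ k := by
          have h5 : (0:ℝ) ≤ k := by linarith
          exact_mod_cast h5
        have hk1 : k ≠ 0 := by
          intro h5
          apply hw1
          rw [hwk, h5]; simp
        apply htriv
        obtain ⟨m, hm⟩ := Int.eq_ofNat_of_zero_le (show 0 ≤ k - 1 by omega)
        refine ⟨m, ?_⟩
        have h6 : k = m + 1 := by omega
        have h7 : s = 1 - w := by rw [hw]; ring
        rw [h7, hwk, h6]
        push_cast
        ring
    exact h s ⟨hs, hre0, hre1⟩

/-- the change of variables `x = e^v` -/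
lemma var_eq {T : ℝ} (hT : 1 < T) {α β : ℝ} (hαβ : α ≤ β) : primeVariance (1 / T) α β =
    ∫ v in (α * Real.log T)..(β * Real.log T), VV (kap T) v ^ 2 := by
  have hT0 : 0 < T := by linarith
  have hL := Real.log_pos hT
  have hpow : ∀ c : ℝ, (1 / T) ^ (-c) = Real.exp (c * Real.log T) := by
    intro c
    rw [Real.rpow_def_of_pos (by positivity), Real.log_div one_ne_zero hT0.ne', Real.log_one]
    congr 1; ring
  have hle : α * Real.log T ≤ β * Real.log T := by gcongr
  unfold primeVariance
  rw [hpow, hpow, intervalIntegral.integral_of_le (Real.exp_le_exp.2 hle), intervalIntegral.integral_of_le hle]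
  have himg : Real.exp '' (Ioc (α * Real.log T) (β * Real.log T)) =
      Ioc (Real.exp (α * Real.log T)) (Real.exp (β * Real.log T)) := by
    ext x
    constructor
    · rintro ⟨v, hv, rfl⟩
      exact ⟨Real.exp_lt_exp.2 hv.1, Real.exp_le_exp.2 hv.2⟩
    · intro hx
      have hx0 : 0 < x := (Real.exp_pos _).trans hx.1
      refine ⟨Real.log x, ⟨?_, ?_⟩, Real.exp_log hx0⟩
      · rw [Real.lt_log_iff_exp_lt hx0]; exact hx.1
      · rw [Real.log_le_iff_le_exp hx0]; exact hx.2
  rw [← himg, integral_image_eq_integral_abs_deriv_smul measurableSet_Ioc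
    (fun x _ => (Real.hasDerivAt_exp x).hasDerivWithinAt) (Real.exp_injective.injOn)]
  refine setIntegral_congr_fun measurableSet_Ioc fun v _ => ?_
  rw [abs_of_pos (Real.exp_pos v), smul_eq_mul]
  unfold VV MM
  have e1 : Real.exp (v + kap T) = (1 + 1 / T) * Real.exp v := by
    rw [Real.exp_add, exp_kap hT0]; ring
  have e2 : Real.exp (-(v / 2)) ^ 2 = (Real.exp v)⁻¹ := by
    rw [← Real.exp_nat_mul, ← Real.exp_neg]
    congr 1; push_cast; ring
  rw [mul_pow, e1, e2]
  have := Real.exp_pos v
  field_simp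
  ring

lemma Win_var {T : ℝ} (hT : 1 < T) {α β : ℝ} (hαβ : α ≤ β) :
    primeVariance (1 / T) α β = Win T α β * ((1 / T) * Real.log (1 / (1 / T)) ^ 2) := by
  have hT0 : 0 < T := by linarith
  have hL := Real.log_pos hT
  rw [var_eq hT hαβ, one_div_one_div]
  unfold Win
  field_simp

lemma lim_iff {P : ℝ → Prop} : (∀ᶠ δ in 𝓝[>] (0:ℝ), P δ) ↔ ∀ᶠ T : ℝ in atTop, P (1 / T) := by
  constructor
  · intro h
    have h1 : Tendsto (fun T : ℝ => 1 / T) atTop (𝓝[>] 0) := by
      simpa using tendsto_inv_atTop_nhdsGT_zero (𝕜 := ℝ)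
    exact h1.eventually h
  · intro h
    have h1 := (tendsto_inv_nhdsGT_zero (𝕜 := ℝ)).eventually h
    filter_upwards [h1] with δ hδ
    rwa [one_div, inv_inv] at hδ

/-- **Unconditional theorem.** The following are equivalent:
(1) the Riemann Hypothesis and Montgomery's pair correlation conjecture hold;
(2) for all `1 ≤ α < β`,
`limsup_{δ → 0+} (1/(δ log²(1/δ))) ∫_{δ^{-α}}^{δ^{-β}} (ψ((1+δ)x) - ψ(x) - δx)² x⁻² dx ≤ β - α`;
(3) for all `1 ≤ α < β`, as `δ → 0+`,
`(1/(δ log²(1/δ))) ∫_{δ^{-α}}^{δ^{-β}} (ψ((1+δ)x) - ψ(x) - δx)² x⁻² dx → β - α`. -/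
theorem result :
    List.TFAE [
      RiemannHypothesis ∧ PairCorrelation,
      ∀ α β : ℝ, 1 ≤ α → α < β → ∀ ε : ℝ, 0 < ε → ∀ᶠ δ in 𝓝[>] (0 : ℝ),
        primeVariance δ α β ≤ (β - α + ε) * (δ * Real.log (1 / δ) ^ 2),
      ∀ α β : ℝ, 1 ≤ α → α < β →
        Tendsto (fun δ => primeVariance δ α β / (δ * Real.log (1 / δ) ^ 2)) (𝓝[>] (0 : ℝ)) (𝓝 (β - α))] := by
  have hpi := Real.pi_pos
  have hT := main_tfae
  have h1 : (RHz ∧ ∀ a > 0, Tendsto (fun T => Lr T a) atTop (𝓝 (Pool.Agent.PairCorr.gue a))) ↔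
      RiemannHypothesis ∧ PairCorrelation := by
    rw [rh_iff]
    refine and_congr Iff.rfl ?_
    unfold PairCorrelation
    constructor
    · intro h a ha
      have h1 := (h a ha).const_mul (1 / (2 * Real.pi))
      exact h1.congr fun T => (ratio_eq T a).symm
    · intro h a ha
      have h1 := (h a ha).const_mul (2 * Real.pi)
      have e : 2 * Real.pi * gueLimit a = Pool.Agent.PairCorr.gue a := by
        unfold gueLimit Pool.Agent.PairCorr.gue
        field_simp
      rw [e] at h1
      refine h1.congr fun T => ?_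
      rw [ratio_eq]
      field_simp
  have h2 : WinUB ↔ ∀ α β : ℝ, 1 ≤ α → α < β → ∀ ε : ℝ, 0 < ε → ∀ᶠ δ in 𝓝[>] (0 : ℝ),
        primeVariance δ α β ≤ (β - α + ε) * (δ * Real.log (1 / δ) ^ 2) := by
    unfold WinUB
    refine forall_congr' fun α => forall_congr' fun β => forall_congr' fun _ => forall_congr' fun hαβ =>
      forall_congr' fun ε => forall_congr' fun _ => ?_
    rw [lim_iff]
    refine eventually_congr ?_
    filter_upwards [eventually_gt_atTop 1] with T hT
    have hT0 : 0 < T := by linarith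
    have hL := Real.log_pos hT
    rw [Win_var hT hαβ.le]
    have hpos : 0 < (1 / T) * Real.log (1 / (1 / T)) ^ 2 := by rw [one_div_one_div]; positivity
    exact (mul_le_mul_iff_left₀ hpos).symm
  have h3 : WinLim ↔ ∀ α β : ℝ, 1 ≤ α → α < β →
        Tendsto (fun δ => primeVariance δ α β / (δ * Real.log (1 / δ) ^ 2)) (𝓝[>] (0 : ℝ)) (𝓝 (β - α)) := by
    unfold WinLim
    refine forall_congr' fun α => forall_congr' fun β => forall_congr' fun _ => forall_congr' fun hαβ => ?_
    rw [Metric.tendsto_nhds, Metric.tendsto_nhds]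
    refine forall_congr' fun ε => forall_congr' fun _ => ?_
    rw [lim_iff]
    refine eventually_congr ?_
    filter_upwards [eventually_gt_atTop 1] with T hT
    have hT0 : 0 < T := by linarith
    have hL := Real.log_pos hT
    rw [Win_var hT hαβ.le]
    have hpos : 0 < (1 / T) * Real.log (1 / (1 / T)) ^ 2 := by rw [one_div_one_div]; positivity
    rw [mul_div_assoc, div_self hpos.ne', mul_one]
  rw [h1, h2, h3] at hT
  exact hT

end Pool.Agent.Results.MP_f58427_nt.PrimeVariance
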