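import Mathlib
import Pool.Agent.PairCorr.A_Sym

/-!
# A failure of the pair correlation conjecture must oscillate with positive density

Unconditionally, Montgomery's pair correlation conjecture is equivalent to: almost all zeros are
within `o(1/log T)` of the critical line, and, on windows `[A, R A]` with `A` arbitrarily large, the
sign of the deviation of the number of pairs `|γ - γ'| ≤ 2πa / log T` from its predicted value (up
to an exponentially small error in `a`) changes at most `κ A` times as `a` runs over the window.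
-/

set_option autoImplicit false

namespace Pool.Agent.Results.MP_f58427_nt.SignChanges

open Filter Topology MeasureTheory

/-- The nontrivial zeros of the Riemann zeta function. -/
def Zeros : Set ℂ := {ρ | riemannZeta ρ = 0 ∧ 0 < ρ.re ∧ ρ.re < 1}

/-- The multiplicity of a zero `ρ`. -/
noncomputable def zmult (ρ : ℂ) : ℕ := analyticOrderNatAt riemannZeta ρ

/-- The pairs `(ρ, ρ')` of nontrivial zeros, with ordinates `(γ, γ')`, such that `0 < γ ≤ T` and
`0 < γ - γ' ≤ 2πa / log T`. -/
def Pairs (T a : ℝ) : Set (ℂ × ℂ) :=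
  {p | p.1 ∈ Zeros ∧ p.2 ∈ Zeros ∧ 0 < p.1.im ∧ p.1.im ≤ T ∧
    0 < p.1.im - p.2.im ∧ p.1.im - p.2.im ≤ 2 * Real.pi * a / Real.log T}

/-- `N*(T,a)`: the number of ordered pairs `(γ,γ')` of ordinates of nontrivial zeros, zeros being
counted with multiplicity, with `0 < γ ≤ T` and `0 < γ - γ' ≤ 2πa / log T`
(the sum is over the finite set `Pairs T a`). -/
noncomputable def NStar (T a : ℝ) : ℝ := ∑ᶠ p ∈ Pairs T a, ((zmult p.1 : ℝ) * (zmult p.2 : ℝ))

/-- The pairs `(ρ, ρ')` of nontrivial zeros, with ordinates `(γ, γ')`, such that `0 < γ ≤ T` and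
`|γ - γ'| ≤ 2πa / log T`, pairs with `γ = γ'` included. -/
def SymPairs (T a : ℝ) : Set (ℂ × ℂ) :=
  {p | p.1 ∈ Zeros ∧ p.2 ∈ Zeros ∧ 0 < p.1.im ∧ p.1.im ≤ T ∧
    |p.1.im - p.2.im| ≤ 2 * Real.pi * a / Real.log T}

/-- The number of ordered pairs `(γ,γ')` of ordinates of nontrivial zeros, zeros being counted with
multiplicity, with `0 < γ ≤ T` and `|γ - γ'| ≤ 2πa / log T`, pairs with `γ = γ'` included
(the sum is over the finite set `SymPairs T a`). -/
noncomputable def NSym (T a : ℝ) : ℝ := ∑ᶠ p ∈ SymPairs T a, ((zmult p.1 : ℝ) * (zmult p.2 : ℝ))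

/-- The nontrivial zeros `ρ` with `0 < Im ρ ≤ T` and `|Re ρ - 1/2| > ε / log T`. -/
def FarZeros (T ε : ℝ) : Set ℂ :=
  {ρ | ρ ∈ Zeros ∧ 0 < ρ.im ∧ ρ.im ≤ T ∧ ε / Real.log T < |ρ.re - 1 / 2|}

/-- The number of nontrivial zeros `ρ` with `0 < Im ρ ≤ T` and `|Re ρ - 1/2| > ε / log T`, counted
with multiplicity (the sum is over the finite set `FarZeros T ε`). -/
noncomputable def NFar (T ε : ℝ) : ℝ := ∑ᶠ ρ ∈ FarZeros T ε, (zmult ρ : ℝ)

/-- `(1/2π) ∫_0^a (1 - (sin πu / πu)²) du`, the predicted limit of `N*(T,a) / (T log T)`. -/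
noncomputable def gueLimit (a : ℝ) : ℝ :=
  1 / (2 * Real.pi) * ∫ u in (0 : ℝ)..a, (1 - (Real.sin (Real.pi * u) / (Real.pi * u)) ^ 2)

/-- the index set is finite, so that the finite sum in `NStar` is the true sum. -/
theorem pairs_finite (T a : ℝ) : (Pairs T a).Finite := Pool.Agent.PairCorr.pairSet_finite T a

/-- the index set is finite, so that the finite sum in `NSym` is the true sum. -/
theorem symPairs_finite (T a : ℝ) : (SymPairs T a).Finite := Pool.Agent.PairCorr.symPairs_finite T a

/-- the index set is finite, so that the finite sum in `NFar` is the true sum. -/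
theorem farZeros_finite (T ε : ℝ) : (FarZeros T ε).Finite := Pool.Agent.PairCorr.farSet_finite T ε

lemma ratio_eq (T a : ℝ) : NStar T a / (T * Real.log T) = 1 / (2 * Real.pi) * Pool.Agent.PairCorr.Lr T a := by
  rw [Pool.Agent.PairCorr.Lr_eq]
  have e : NStar T a = Pool.Agent.PairCorr.NStar T a := rfl
  rw [e]
  unfold Pool.Agent.PairCorr.NT
  have hpi := Real.pi_pos
  by_cases h : T * Real.log T = 0
  · simp [h]
  · field_simp

lemma sym_eq (T a : ℝ) : NSym T a / (T * Real.log T) =
    1 / (2 * Real.pi) * (Pool.Agent.PairCorr.N2 T a / Pool.Agent.PairCorr.NT T) := by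
  have e : NSym T a = Pool.Agent.PairCorr.N2 T a := rfl
  rw [e]
  unfold Pool.Agent.PairCorr.NT
  have hpi := Real.pi_pos
  by_cases h : T * Real.log T = 0
  · simp [h]
  · field_simp

/-- the deviation of the symmetric count, in the normalisation of `PairCorr` -/
lemma dev_eq {l : Filter ℝ} (hl : l ≤ atTop) {a : ℝ} (ha : 0 ≤ a) :
    Tendsto (fun T => (NSym T a / (T * Real.log T) - (2 * gueLimit a + 1 / (2 * Real.pi))) -
      1 / Real.pi * ((Pool.Agent.PairCorr.Mr T - 1) / 2 +
        (Pool.Agent.PairCorr.Lr T a - Pool.Agent.PairCorr.gue a))) l (𝓝 0) := by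
  have hpi := Real.pi_pos
  have h1 := ((Pool.Agent.PairCorr.N2_ratio ha).mono_left hl).const_mul (1 / (2 * Real.pi))
  rw [mul_zero] at h1
  refine h1.congr fun T => ?_
  rw [sym_eq]
  have hg : gueLimit a = 1 / (2 * Real.pi) * Pool.Agent.PairCorr.gue a := rfl
  rw [hg]
  field_simp
  ring

/-- **Unconditional theorem.** There is an absolute constant `R > 1`, and for every `c > 0` there is
`κ > 0`, such that the following holds when `T → ∞` (`l = atTop`) or `T → ∞` along any countably
generated filter `l`, for instance along any sequence. The pair correlation asymptotic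
`N*(T,a) ~ (1/2π) ∫_0^a (1 - (sin πu/πu)²) du · T log T` holds for every `a > 0` along `l`
if and only if
(i) for every `ε > 0` all but `o(T log T)` of the zeros up to height `T` are within `ε / log T` of
the critical line, along `l`, and
(ii) for some `B` there are arbitrarily large `A` for which one can choose a sign `s = ±1` and a
finite set `E` of at most `κ A` points, such that the deviation of
`#{(γ,γ') : 0 < γ ≤ T, |γ - γ'| ≤ 2πa/log T} / (T log T)` from its predicted limit
`(1/π) ∫_0^a (1 - (sin πu/πu)²) du + 1/(2π)`, multiplied by the sign `s (-1)^{#{x ∈ E : x < a}}`,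
is asymptotically at least `- B e^{-ca}` along `l`, for every `a ∈ [A, R A]`. -/
theorem result : ∃ R : ℝ, 1 < R ∧ ∀ c : ℝ, 0 < c → ∃ κ : ℝ, 0 < κ ∧
    ∀ (l : Filter ℝ) [l.IsCountablyGenerated], l ≤ atTop →
    ((∀ a : ℝ, 0 < a → Tendsto (fun T => NStar T a / (T * Real.log T)) l (𝓝 (gueLimit a))) ↔
    ((∀ ε : ℝ, 0 < ε → Tendsto (fun T => NFar T ε / (T * Real.log T)) l (𝓝 0)) ∧
     ∃ B : ℝ, ∀ X : ℝ, ∃ A : ℝ, X ≤ A ∧ ∃ E : Finset ℝ, (E.card : ℝ) ≤ κ * A ∧
      ∃ s : ℝ, (s = 1 ∨ s = -1) ∧ ∀ a : ℝ, A ≤ a → a ≤ R * A → ∀ ε : ℝ, 0 < ε → ∀ᶠ T in l,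
        -(B * Real.exp (-(c * a))) - ε ≤ s * (-1) ^ (E.filter (· < a)).card *
          (NSym T a / (T * Real.log T) - (2 * gueLimit a + 1 / (2 * Real.pi))))) := by
  have hpi := Real.pi_pos
  obtain ⟨b, hb, hmain⟩ := Pool.Agent.PairCorr.main_sign2
  refine ⟨Pool.Agent.PairCorr.R0, Pool.Agent.PairCorr.one_lt_R0, fun c hc =>
    ⟨Pool.Agent.PairCorr.kapS b c, Pool.Agent.PairCorr.kapS_pos hb hc, fun l _ hl => ?_⟩⟩
  have hg : ∀ a, gueLimit a = 1 / (2 * Real.pi) * Pool.Agent.PairCorr.gue a := fun a => rfl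
  have hnear : (∀ ε : ℝ, 0 < ε → Tendsto (fun T => NFar T ε / (T * Real.log T)) l (𝓝 0)) ↔
      Pool.Agent.PairCorr.NearLine l := by
    rw [Pool.Agent.PairCorr.NearLine_iff]
    exact Iff.rfl
  rw [hnear]
  constructor
  · intro h
    have hM : Tendsto Pool.Agent.PairCorr.Mr l (𝓝 1) := by
      apply Pool.Agent.PairCorr.Mr_tendsto hl
      intro η hη
      refine ⟨1, fun a ha => ?_⟩
      have h1 := (h a (by linarith)).eventually
        (lt_mem_nhds (show gueLimit a - η / (2 * Real.pi) < gueLimit a by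
          have : 0 < η / (2 * Real.pi) := by positivity
          linarith))
      filter_upwards [h1] with T hT
      rw [ratio_eq, hg] at hT
      have h2 := mul_le_mul_of_nonneg_left hT.le (by positivity : 0 ≤ 2 * Real.pi)
      have e1 : 2 * Real.pi * (1 / (2 * Real.pi) * Pool.Agent.PairCorr.gue a - η / (2 * Real.pi)) =
          Pool.Agent.PairCorr.gue a - η := by field_simp
      have e2 : 2 * Real.pi * (1 / (2 * Real.pi) * Pool.Agent.PairCorr.Lr T a) = Pool.Agent.PairCorr.Lr T a := by
        field_simp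
      rw [e1, e2] at h2
      exact h2
    refine ⟨Pool.Agent.PairCorr.NearLine_of_Mr hl hM, 0, fun X => ⟨max X 1, le_max_left _ _, ∅, ?_, 1,
      Or.inl rfl, fun a ha _ ε hε => ?_⟩⟩
    · have h1 := Pool.Agent.PairCorr.kapS_pos hb hc
      have h2 : (1:ℝ) ≤ max X 1 := le_max_right _ _
      simp only [Finset.card_empty, Nat.cast_zero]
      positivity
    · have ha0 : 0 < a := lt_of_lt_of_le one_pos ((le_max_right X 1).trans ha)
      have hL : Tendsto (fun T => Pool.Agent.PairCorr.Lr T a - Pool.Agent.PairCorr.gue a) l (𝓝 0) := by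
        have h1 := (h a ha0).const_mul (2 * Real.pi)
        have h2 := h1.sub_const (Pool.Agent.PairCorr.gue a)
        have e : 2 * Real.pi * gueLimit a - Pool.Agent.PairCorr.gue a = 0 := by
          rw [hg]; field_simp; ring
        rw [e] at h2
        refine h2.congr fun T => ?_
        rw [ratio_eq]
        field_simp
      have hM2 : Tendsto (fun T => (Pool.Agent.PairCorr.Mr T - 1) / 2) l (𝓝 0) := by
        have := (hM.sub_const 1).div_const 2
        simpa using this
      have h3 := (dev_eq hl ha0.le).add ((hM2.add hL).const_mul (1 / Real.pi))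
      rw [add_zero, mul_zero, add_zero] at h3
      have h4 := h3.eventually (lt_mem_nhds (show -ε < 0 by linarith))
      filter_upwards [h4] with T hT
      simp only [Finset.filter_empty, Finset.card_empty, pow_zero, mul_one, one_mul, zero_mul, neg_zero,
        zero_sub]
      have e : (NSym T a / (T * Real.log T) - (2 * gueLimit a + 1 / (2 * Real.pi)) -
          1 / Real.pi * ((Pool.Agent.PairCorr.Mr T - 1) / 2 +
            (Pool.Agent.PairCorr.Lr T a - Pool.Agent.PairCorr.gue a))) +
          1 / Real.pi * ((Pool.Agent.PairCorr.Mr T - 1) / 2 +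
            (Pool.Agent.PairCorr.Lr T a - Pool.Agent.PairCorr.gue a)) =
          NSym T a / (T * Real.log T) - (2 * gueLimit a + 1 / (2 * Real.pi)) := by ring
      rw [e] at hT
      exact hT.le
  · rintro ⟨hM, B, hw⟩ a ha
    have h1 := (hmain c hc l hl hM (Real.pi * |B|) (by positivity) (by
      intro X
      obtain ⟨A, hXA, E, hE, s, hs, hwin⟩ := hw (max X 0)
      have hA0 : 0 ≤ A := (le_max_right X 0).trans hXA
      refine ⟨A, (le_max_left X 0).trans hXA, E, hE, s, hs, fun a ha ε hε => ?_⟩
      have ha0 : 0 ≤ a := hA0.trans ha.1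
      have hd := (dev_eq hl ha0).eventually (Metric.ball_mem_nhds 0 (show 0 < ε / (2 * Real.pi) by positivity))
      filter_upwards [hwin a ha.1 ha.2 (ε / (2 * Real.pi)) (by positivity), hd] with T hT hdT
      rw [Real.dist_eq, sub_zero] at hdT
      set dev := NSym T a / (T * Real.log T) - (2 * gueLimit a + 1 / (2 * Real.pi)) with hdev
      set H := (Pool.Agent.PairCorr.Mr T - 1) / 2 + (Pool.Agent.PairCorr.Lr T a - Pool.Agent.PairCorr.gue a)
        with hH
      set σ : ℝ := s * (-1) ^ (E.filter (· < a)).card with hσ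
      have hσ1 : |σ| = 1 := by
        rw [hσ, abs_mul, abs_pow, abs_neg, abs_one, one_pow, mul_one]
        rcases hs with h | h <;> rw [h] <;> simp
      have h2 : σ * dev - σ * (1 / Real.pi * H) ≤ ε / (2 * Real.pi) := by
        rw [← mul_sub]
        refine (le_abs_self _).trans ?_
        rw [abs_mul, hσ1, one_mul]
        exact hdT.le
      have h3 : -(B * Real.exp (-(c * a))) - ε / (2 * Real.pi) - ε / (2 * Real.pi) ≤
          σ * (1 / Real.pi * H) := by linarith
      have h4 := mul_le_mul_of_nonneg_left h3 hpi.le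
      have e1 : Real.pi * (-(B * Real.exp (-(c * a))) - ε / (2 * Real.pi) - ε / (2 * Real.pi)) =
          -(Real.pi * B * Real.exp (-(c * a))) - ε := by field_simp; ring
      have e2 : Real.pi * (σ * (1 / Real.pi * H)) = s * Pool.Agent.PairCorr.sgnE E a * H := by
        rw [hσ]
        unfold Pool.Agent.PairCorr.sgnE
        field_simp
      rw [e1, e2] at h4
      have h5 : Real.pi * B * Real.exp (-(c * a)) ≤ Real.pi * |B| * Real.exp (-(c * a)) := by
        have := le_abs_self B
        gcongr
      linarith)).2 a ha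
    have h2 := h1.const_mul (1 / (2 * Real.pi))
    rw [hg]
    exact h2.congr fun T => (ratio_eq T a).symm

end Pool.Agent.Results.MP_f58427_nt.SignChanges
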