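import Mathlib
import Pool.Agent.H12.TP.Final

/-!
# Montgomery's pair correlation conjecture in terms of truncated mean squares of prime sums

No hypothesis (in particular no Riemann Hypothesis) is made: Montgomery's pair correlation
conjecture is equivalent to a one-sided bound for the mean squares of smooth prime sums, truncated
at a fixed height.
-/

set_option autoImplicit false

namespace Pool.Agent.Results.MP_f58427_nt.TruncatedPrimes

open Filter Topology MeasureTheory Set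
open scoped ArithmeticFunction.vonMangoldt
open Pool.Agent.PairCorr (Lr NT)
open Pool.Agent.PairCorr.P6 (ρ1)
open Pool.Agent.H12.TP (PT PS TM TrimUB TrimLim main_tfae)

/-- The nontrivial zeros of the Riemann zeta function. -/
def Zeros : Set ℂ := {ρ | riemannZeta ρ = 0 ∧ 0 < ρ.re ∧ ρ.re < 1}

/-- The multiplicity of a zero `ρ`. -/
noncomputable def zmult (ρ : ℂ) : ℕ := analyticOrderNatAt riemannZeta ρ

/-- The pairs `(ρ, ρ')` of nontrivial zeros, with ordinates `(γ, γ')`, such that `0 < γ ≤ T` and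
`0 < γ - γ' ≤ 2πa / log T`. -/
def Pairs (T a : ℝ) : Set (ℂ × ℂ) :=
  {p | p.1 ∈ Zeros ∧ p.2 ∈ Zeros ∧ 0 < p.1.im ∧ p.1.im ≤ T ∧
    0 < p.1.im - p.2.im ∧ p.1.im - p.2.im ≤ 2 * Real.pi * a / Real.log T}

/-- `N*(T,a)`: the number of ordered pairs `(γ,γ')` of ordinates of nontrivial zeros, zeros being
counted with multiplicity, with `0 < γ ≤ T` and `0 < γ - γ' ≤ 2πa / log T`
(the sum is over the finite set `Pairs T a`). -/
noncomputable def NStar (T a : ℝ) : ℝ := ∑ᶠ p ∈ Pairs T a, ((zmult p.1 : ℝ) * (zmult p.2 : ℝ))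

/-- `(1/2π) ∫_0^a (1 - (sin πu / πu)²) du`, the predicted limit of `N*(T,a) / (T log T)`. -/
noncomputable def gueLimit (a : ℝ) : ℝ :=
  1 / (2 * Real.pi) * ∫ u in (0 : ℝ)..a, (1 - (Real.sin (Real.pi * u) / (Real.pi * u)) ^ 2)

/-- Montgomery's pair correlation conjecture: for every `a > 0`, as `T → ∞`,
`N*(T,a) = ((1/2π) ∫_0^a (1 - (sin πu / πu)²) du + o(1)) T log T`. -/
def PairCorrelation : Prop :=
  ∀ a : ℝ, 0 < a → Tendsto (fun T => NStar T a / (T * Real.log T)) atTop (𝓝 (gueLimit a))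

/-- A weight is a smooth function on the real line which vanishes outside a compact interval
`[a,b]` with `0 < a`. -/
def IsWeight (W : ℝ → ℝ) : Prop :=
  ContDiff ℝ (⊤ : ℕ∞) W ∧ ∃ a b : ℝ, 0 < a ∧ ∀ v, v ∉ Icc a b → W v = 0

/-- The prime sum `P(t) = (1/log T) ∑_n Λ(n) n^{-1/2-it} W(log n / log T)`
(for a weight `W` and `T > 1` only finitely many terms are nonzero). -/
noncomputable def primeSum (W : ℝ → ℝ) (T t : ℝ) : ℂ :=
  (∑' n : ℕ, (Λ n : ℂ) * (n : ℂ) ^ (-(1 / 2 + t * Complex.I)) *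
    (W (Real.log n / Real.log T) : ℂ)) / Real.log T

/-- The mean square of the prime sum over `[0,T]`, truncated at `M`:
`(1/T) ∫_0^T min(|P(t)|², M) dt`. -/
noncomputable def truncMean (W : ℝ → ℝ) (M T : ℝ) : ℝ :=
  1 / T * ∫ t in (0 : ℝ)..T, min (‖primeSum W T t‖ ^ 2) M

/-- The expected value `∫_0^∞ min(v,1) W(v)² dv`. -/
noncomputable def expected (W : ℝ → ℝ) : ℝ := ∫ v in Ioi (0 : ℝ), min v 1 * W v ^ 2

/-- the index set is finite, so that the finite sum in `NStar` is the true sum. -/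
theorem pairs_finite (T a : ℝ) : (Pairs T a).Finite := Pool.Agent.PairCorr.pairSet_finite T a

lemma ratio_eq (T a : ℝ) : NStar T a / (T * Real.log T) = 1 / (2 * Real.pi) * Lr T a := by
  rw [Pool.Agent.PairCorr.Lr_eq]
  have e : NStar T a = Pool.Agent.PairCorr.NStar T a := rfl
  rw [e]
  unfold NT
  have hpi := Real.pi_pos
  by_cases h : T * Real.log T = 0
  · simp [h]
  · field_simp

lemma pairCorrelation_iff :
    (∀ a > 0, Tendsto (fun T => Lr T a) atTop (𝓝 (Pool.Agent.PairCorr.gue a))) ↔ PairCorrelation := by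
  have hpi := Real.pi_pos
  unfold PairCorrelation
  constructor
  · intro h a ha
    have h1 := (h a ha).const_mul (1 / (2 * Real.pi))
    exact h1.congr fun T => (ratio_eq T a).symm
  · intro h a ha
    have h1 := (h a ha).const_mul (2 * Real.pi)
    have e : 2 * Real.pi * gueLimit a = Pool.Agent.PairCorr.gue a := by
      unfold gueLimit Pool.Agent.PairCorr.gue
      field_simp
    rw [e] at h1
    refine h1.congr fun T => ?_
    rw [ratio_eq]
    field_simp

lemma truncMean_eq (W : ℝ → ℝ) (M T : ℝ) : truncMean W M T = TM W M T := by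
  unfold truncMean TM
  rw [one_div]
  rfl

lemma weight_iff {W : ℝ → ℝ} : IsWeight W ↔ ∃ a b, PT W a b :=
  ⟨fun ⟨h, a, b, ha, hs⟩ => ⟨a, b, h, ha, hs⟩, fun ⟨a, b, h⟩ => ⟨h.smooth, a, b, h.pos, h.supp⟩⟩

lemma expected_eq {W : ℝ → ℝ} {a b : ℝ} (h : PT W a b) : expected W = ∫ v, ρ1 v * W v ^ 2 := by
  unfold expected
  rw [← integral_indicator measurableSet_Ioi]
  congr 1
  ext v
  by_cases hv : v ∈ Ioi (0 : ℝ)
  · rw [indicator_of_mem hv]
    have hv' : 0 < v := hv
    unfold ρ1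
    rw [abs_of_pos hv']
  · rw [indicator_of_notMem hv]
    have hv' : v ≤ 0 := not_lt.1 hv
    rw [h.zero_of_nonpos hv']
    ring

/-- **Unconditional theorem.** The following are equivalent:
(1) Montgomery's pair correlation conjecture: `N*(T,a)/(T log T) → (1/2π) ∫_0^a (1-(sin πu/πu)²) du`
for every `a > 0`;
(2) for every nonnegative weight `W` and every `M > 0`,
`limsup_{T → ∞} (1/T) ∫_0^T min(|P(t)|², M) dt ≤ ∫_0^∞ min(v,1) W(v)² dv`;
(3) for every weight `W`, the truncated mean squares converge to `∫_0^∞ min(v,1) W(v)² dv` as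
`T → ∞` and then `M → ∞`. -/
theorem result :
    List.TFAE [
      PairCorrelation,
      ∀ W : ℝ → ℝ, IsWeight W → (∀ v, 0 ≤ W v) → ∀ M : ℝ, 0 < M → ∀ ε : ℝ, 0 < ε →
        ∀ᶠ T in atTop, truncMean W M T ≤ expected W + ε,
      ∀ W : ℝ → ℝ, IsWeight W → ∀ ε : ℝ, 0 < ε → ∃ M₀ : ℝ, ∀ M : ℝ, M₀ ≤ M →
        ∀ᶠ T in atTop, |truncMean W M T - expected W| ≤ ε] := by
  have hT := main_tfae
  have h2 : TrimUB ↔ ∀ W : ℝ → ℝ, IsWeight W → (∀ v, 0 ≤ W v) → ∀ M : ℝ, 0 < M → ∀ ε : ℝ, 0 < ε →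
        ∀ᶠ T in atTop, truncMean W M T ≤ expected W + ε := by
    unfold TrimUB
    constructor
    · intro h W hW h0 M hM ε hε
      obtain ⟨a, b, hab⟩ := weight_iff.1 hW
      filter_upwards [h W a b hab h0 M hM ε hε] with T hT
      rw [truncMean_eq, expected_eq hab]
      exact hT
    · intro h W a b hab h0 M hM ε hε
      filter_upwards [h W (weight_iff.2 ⟨a, b, hab⟩) h0 M hM ε hε] with T hT
      rw [truncMean_eq, expected_eq hab] at hT
      exact hT
  have h3 : TrimLim ↔ ∀ W : ℝ → ℝ, IsWeight W → ∀ ε : ℝ, 0 < ε → ∃ M₀ : ℝ, ∀ M : ℝ, M₀ ≤ M →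
        ∀ᶠ T in atTop, |truncMean W M T - expected W| ≤ ε := by
    unfold TrimLim
    constructor
    · intro h W hW ε hε
      obtain ⟨a, b, hab⟩ := weight_iff.1 hW
      obtain ⟨M₀, hM₀⟩ := h W a b hab ε hε
      refine ⟨M₀, fun M hM => ?_⟩
      filter_upwards [hM₀ M hM] with T hT
      rw [truncMean_eq, expected_eq hab]
      exact hT
    · intro h W a b hab ε hε
      obtain ⟨M₀, hM₀⟩ := h W (weight_iff.2 ⟨a, b, hab⟩) ε hε
      refine ⟨M₀, fun M hM => ?_⟩
      filter_upwards [hM₀ M hM] with T hT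
      rw [truncMean_eq, expected_eq hab] at hT
      exact hT
  rw [pairCorrelation_iff, h2, h3] at hT
  exact hT

end Pool.Agent.Results.MP_f58427_nt.TruncatedPrimes
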